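import Mathlib
import Pool.Agent.W852.FG.Stms

/-!
The `2 r`-th moment of the averaged quantity.
-/

namespace Pool.Agent.W636.FG

open MeasureTheory ProbabilityTheory Filter FrogGW
open scoped ENNReal NNReal Classical

variable {X : Type} [MeasurableSpace X] {μ : Measure X} [IsProbabilityMeasure μ] {w a : X → ℝ}
  {γ : ℝ}

/-- the inverse denominator -/
noncomputable def D (w : X → ℝ) (γ : ℝ) (s : Finset ℕ) (Y : ℕ → X) : ℝ :=
  (1 + γ * ∑ j ∈ s, w (Y j))⁻¹

omit [MeasurableSpace X] in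
lemma D_nonneg (hw : ∀ x, 0 ≤ w x ∧ w x ≤ 1) (hγ : 0 < γ) (s : Finset ℕ) (Y : ℕ → X) :
    0 ≤ D w γ s Y := by
  unfold D
  have : 0 ≤ ∑ j ∈ s, w (Y j) := Finset.sum_nonneg fun j _ => (hw _).1
  positivity

lemma D_meas (hw : Measurable w) (s : Finset ℕ) : Measurable (D w γ s) := by
  unfold D
  fun_prop

/-- bound for every number of children -/
lemma bound1 (hB : TaskPtB) (hI : TaskInd) (hw : Measurable w) (ha : Measurable a)
    (hw1 : ∀ x, 0 ≤ w x ∧ w x ≤ 1) (ha0 : ∀ x, 0 ≤ a x) (hγ : 0 < γ) (lam : ℝ≥0) (P : ℕ)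
    (hP : 1 ≤ P) (k : ℕ) :
    ∫⁻ Y, ENNReal.ofReal (Wf lam γ a w k Y ^ P) ∂(Measure.infinitePi fun _ : ℕ => μ) ≤
      ENNReal.ofReal (((k : ℝ) + 1) ^ (P - 1)) * ((lam : ℝ≥0∞) ^ P * mk μ w γ P k +
        (k : ℝ≥0∞) * ((∫⁻ x, ENNReal.ofReal (a x ^ P) ∂μ) * mk μ w γ P (k - 1))) := by
  have hD : ∀ s Y, 0 ≤ D w γ s Y := D_nonneg hw1 hγ
  calc ∫⁻ Y, ENNReal.ofReal (Wf lam γ a w k Y ^ P) ∂(Measure.infinitePi fun _ : ℕ => μ)
      ≤ ∫⁻ Y, ENNReal.ofReal (((k : ℝ) + 1) ^ (P - 1)) *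
          (ENNReal.ofReal ((lam : ℝ) ^ P) * ENNReal.ofReal (D w γ (Finset.range k) Y ^ P) +
            ∑ i ∈ Finset.range k, ENNReal.ofReal (a (Y i) ^ P *
              D w γ ((Finset.range k).erase i) Y ^ P)) ∂(Measure.infinitePi fun _ : ℕ => μ) := by
        refine lintegral_mono fun Y => ?_
        refine (ENNReal.ofReal_le_ofReal (hB P k hP γ lam (fun i => a (Y i)) (fun i => w (Y i)) hγ
          lam.2 (fun i => ha0 _) (fun i => (hw1 _).1))).trans (le_of_eq ?_)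
        change ENNReal.ofReal (((k : ℝ) + 1) ^ (P - 1) * ((lam : ℝ) ^ P *
          D w γ (Finset.range k) Y ^ P + ∑ i ∈ Finset.range k, a (Y i) ^ P *
              D w γ ((Finset.range k).erase i) Y ^ P)) = _
        have hn : ∀ i ∈ Finset.range k, 0 ≤ a (Y i) ^ P *
            D w γ ((Finset.range k).erase i) Y ^ P := fun i _ =>
          mul_nonneg (pow_nonneg (ha0 _) _) (pow_nonneg (hD _ _) _)
        rw [ENNReal.ofReal_mul (by positivity), ENNReal.ofReal_add
          (mul_nonneg (by positivity) (pow_nonneg (hD _ _) _)) (Finset.sum_nonneg hn),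
          ENNReal.ofReal_mul (by positivity), ENNReal.ofReal_sum_of_nonneg hn]
    _ = _ := by
        have hm1 : Measurable fun Y => ENNReal.ofReal (D w γ (Finset.range k) Y ^ P) :=
          ((D_meas hw _).pow_const _).ennreal_ofReal
        have hm2 : ∀ i ∈ Finset.range k, Measurable fun Y : ℕ → X =>
            ENNReal.ofReal (a (Y i) ^ P * D w γ ((Finset.range k).erase i) Y ^ P) := fun i _ =>
          (((ha.comp (measurable_pi_apply i)).pow_const _).mul
            ((D_meas hw _).pow_const _)).ennreal_ofReal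
        have hm3 : Measurable fun Y : ℕ → X => ENNReal.ofReal ((lam : ℝ) ^ P) *
            ENNReal.ofReal (D w γ (Finset.range k) Y ^ P) + ∑ i ∈ Finset.range k,
              ENNReal.ofReal (a (Y i) ^ P * D w γ ((Finset.range k).erase i) Y ^ P) :=
          (hm1.const_mul _).add (Finset.measurable_fun_sum _ hm2)
        rw [lintegral_const_mul _ hm3,
          lintegral_add_left (hm1.const_mul _), lintegral_const_mul _ hm1,
          lintegral_finsetSum _ hm2]
        congr 2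
        · congr 1
          rw [ENNReal.ofReal_pow (NNReal.coe_nonneg lam), ENNReal.ofReal_coe_nnreal]
        · refine (Finset.sum_congr rfl (fun i hi => (hI X μ w a γ hw ha hw1 ha0 hγ).1 P k i
            (Finset.mem_range.1 hi))).trans ?_
          rw [Finset.sum_const, Finset.card_range, nsmul_eq_mul]

/-- bound with a constant depending on the number of children -/
lemma bound2 (hI : TaskInd) (hw : Measurable w) (ha : Measurable a)
    (hw1 : ∀ x, 0 ≤ w x ∧ w x ≤ 1) (ha0 : ∀ x, 0 ≤ a x) (hγ : 0 < γ) (lam : ℝ≥0) (r : ℕ)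
    (k : ℕ) (δ C : ℝ≥0)
    (hC : ∀ (γ lam : ℝ) (a w : ℕ → ℝ), 0 < γ → 0 ≤ lam → (∀ i, 0 ≤ a i) → (∀ i, 0 ≤ w i) →
    ((lam + ∑ i ∈ Finset.range k, a i) / (1 + γ * ∑ i ∈ Finset.range k, w i)) ^ (2 * r) ≤
      (1 + (δ : ℝ)) * ∑ i ∈ Finset.range k, a i ^ (2 * r) *
        ((1 + γ * ∑ j ∈ (Finset.range k).erase i, w j)⁻¹) ^ (2 * r) +
      C * (lam ^ (2 * r) + ∑ i ∈ Finset.range k, ∑ j ∈ (Finset.range k).erase i,
        a i ^ r * a j ^ r)) :
    ∫⁻ Y, ENNReal.ofReal (Wf lam γ a w k Y ^ (2 * r)) ∂(Measure.infinitePi fun _ : ℕ => μ) ≤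
      (1 + (δ : ℝ≥0∞)) * ((k : ℝ≥0∞) * mk μ w γ (2 * r) (k - 1)) *
        (∫⁻ x, ENNReal.ofReal (a x ^ (2 * r)) ∂μ) +
      C * (1 + (k : ℝ≥0∞) ^ 2) * ((lam : ℝ≥0∞) ^ (2 * r) +
        (∫⁻ x, ENNReal.ofReal (a x ^ r) ∂μ) ^ 2) := by
  have hD : ∀ s Y, 0 ≤ D w γ s Y := D_nonneg hw1 hγ
  calc ∫⁻ Y, ENNReal.ofReal (Wf lam γ a w k Y ^ (2 * r)) ∂(Measure.infinitePi fun _ : ℕ => μ)
      ≤ ∫⁻ Y, ((1 + (δ : ℝ≥0∞)) * (∑ i ∈ Finset.range k, ENNReal.ofReal (a (Y i) ^ (2 * r) *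
              D w γ ((Finset.range k).erase i) Y ^ (2 * r))) +
            C * ((lam : ℝ≥0∞) ^ (2 * r) + ∑ i ∈ Finset.range k,
              ∑ j ∈ (Finset.range k).erase i, ENNReal.ofReal (a (Y i) ^ r * a (Y j) ^ r)))
            ∂(Measure.infinitePi fun _ : ℕ => μ) := by
        refine lintegral_mono fun Y => ?_
        refine (ENNReal.ofReal_le_ofReal (hC γ lam (fun i => a (Y i)) (fun i => w (Y i)) hγ
          lam.2 (fun i => ha0 _) (fun i => (hw1 _).1))).trans (le_of_eq ?_)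
        change ENNReal.ofReal ((1 + (δ : ℝ)) * (∑ i ∈ Finset.range k, a (Y i) ^ (2 * r) *
              D w γ ((Finset.range k).erase i) Y ^ (2 * r)) + C * ((lam : ℝ) ^ (2 * r) +
              ∑ i ∈ Finset.range k, ∑ j ∈ (Finset.range k).erase i,
                a (Y i) ^ r * a (Y j) ^ r)) = _
        have hn : ∀ i ∈ Finset.range k, 0 ≤ a (Y i) ^ (2 * r) *
            D w γ ((Finset.range k).erase i) Y ^ (2 * r) := fun i _ =>
          mul_nonneg (pow_nonneg (ha0 _) _) (pow_nonneg (hD _ _) _)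
        have hn2 : ∀ i j, 0 ≤ a (Y i) ^ r * a (Y j) ^ r := fun i j =>
          mul_nonneg (pow_nonneg (ha0 _) _) (pow_nonneg (ha0 _) _)
        have hn3 : ∀ i ∈ Finset.range k, 0 ≤ ∑ j ∈ (Finset.range k).erase i,
            a (Y i) ^ r * a (Y j) ^ r := fun i _ => Finset.sum_nonneg fun j _ => hn2 i j
        rw [ENNReal.ofReal_add (mul_nonneg (by positivity) (Finset.sum_nonneg hn))
          (mul_nonneg (by positivity) (add_nonneg (by positivity) (Finset.sum_nonneg hn3))),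
          ENNReal.ofReal_mul (by positivity), ENNReal.ofReal_mul (by positivity),
          ENNReal.ofReal_add (by positivity) (Finset.sum_nonneg hn3),
          ENNReal.ofReal_sum_of_nonneg hn, ENNReal.ofReal_sum_of_nonneg hn3,
          ENNReal.ofReal_pow (NNReal.coe_nonneg lam), ENNReal.ofReal_coe_nnreal,
          ENNReal.ofReal_coe_nnreal, ENNReal.ofReal_add zero_le_one (NNReal.coe_nonneg δ),
          ENNReal.ofReal_one, ENNReal.ofReal_coe_nnreal]
        congr 3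
        refine Finset.sum_congr rfl fun i _ => ?_
        rw [ENNReal.ofReal_sum_of_nonneg fun j _ => hn2 i j]
    _ = (1 + (δ : ℝ≥0∞)) * ((k : ℝ≥0∞) * ((∫⁻ x, ENNReal.ofReal (a x ^ (2 * r)) ∂μ) *
          mk μ w γ (2 * r) (k - 1))) +
        C * ((lam : ℝ≥0∞) ^ (2 * r) + ∑ i ∈ Finset.range k,
              ∑ j ∈ (Finset.range k).erase i, (∫⁻ x, ENNReal.ofReal (a x ^ r) ∂μ) ^ 2) := by
        have hm2 : ∀ i ∈ Finset.range k, Measurable fun Y : ℕ → X =>
            ENNReal.ofReal (a (Y i) ^ (2 * r) * D w γ ((Finset.range k).erase i) Y ^ (2 * r)) :=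
          fun i _ => (((ha.comp (measurable_pi_apply i)).pow_const _).mul
            ((D_meas hw _).pow_const _)).ennreal_ofReal
        have hm3 : ∀ i j, Measurable fun Y : ℕ → X =>
            ENNReal.ofReal (a (Y i) ^ r * a (Y j) ^ r) := fun i j =>
          (((ha.comp (measurable_pi_apply i)).pow_const _).mul
            ((ha.comp (measurable_pi_apply j)).pow_const _)).ennreal_ofReal
        have hm4 : ∀ i ∈ Finset.range k, Measurable fun Y : ℕ → X =>
            ∑ j ∈ (Finset.range k).erase i, ENNReal.ofReal (a (Y i) ^ r * a (Y j) ^ r) :=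
          fun i _ => Finset.measurable_fun_sum _ fun j _ => hm3 i j
        have hm5 : Measurable fun Y : ℕ → X => (lam : ℝ≥0∞) ^ (2 * r) + ∑ i ∈ Finset.range k,
            ∑ j ∈ (Finset.range k).erase i, ENNReal.ofReal (a (Y i) ^ r * a (Y j) ^ r) :=
          measurable_const.add (Finset.measurable_fun_sum _ hm4)
        rw [lintegral_add_left ((Finset.measurable_fun_sum _ hm2).const_mul _),
          lintegral_const_mul _ (Finset.measurable_fun_sum _ hm2), lintegral_finsetSum _ hm2,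
          lintegral_const_mul _ hm5,
          lintegral_add_left measurable_const, lintegral_finsetSum _ hm4, lintegral_const,
          measure_univ, mul_one]
        congr 2
        · refine (Finset.sum_congr rfl (fun i hi => (hI X μ w a γ hw ha hw1 ha0 hγ).1 (2 * r) k i
            (Finset.mem_range.1 hi))).trans ?_
          rw [Finset.sum_const, Finset.card_range, nsmul_eq_mul]
        · congr 1
          refine Finset.sum_congr rfl fun i _ => ?_
          rw [lintegral_finsetSum _ fun j _ => hm3 i j]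
          refine Finset.sum_congr rfl fun j hj => ?_
          exact (hI X μ w a γ hw ha hw1 ha0 hγ).2.1 r i j (Finset.ne_of_mem_erase hj).symm
    _ ≤ _ := by
        refine add_le_add (le_of_eq (by ring)) ?_
        rw [mul_assoc]
        refine mul_le_mul_right ?_ _
        have h1 : ∑ i ∈ Finset.range k, ∑ j ∈ (Finset.range k).erase i,
            (∫⁻ x, ENNReal.ofReal (a x ^ r) ∂μ) ^ 2 ≤
            (k : ℝ≥0∞) ^ 2 * (∫⁻ x, ENNReal.ofReal (a x ^ r) ∂μ) ^ 2 := by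
          calc _ ≤ ∑ i ∈ Finset.range k, ∑ j ∈ Finset.range k,
                (∫⁻ x, ENNReal.ofReal (a x ^ r) ∂μ) ^ 2 :=
                Finset.sum_le_sum fun i _ => Finset.sum_le_sum_of_subset (Finset.erase_subset _ _)
            _ = _ := by
                rw [Finset.sum_const, Finset.sum_const, Finset.card_range, nsmul_eq_mul,
                  nsmul_eq_mul, ← mul_assoc, sq (k : ℝ≥0∞)]
        calc (lam : ℝ≥0∞) ^ (2 * r) + _ ≤ (lam : ℝ≥0∞) ^ (2 * r) + (k : ℝ≥0∞) ^ 2 *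
              (∫⁻ x, ENNReal.ofReal (a x ^ r) ∂μ) ^ 2 := by gcongr
          _ ≤ (1 + (k : ℝ≥0∞) ^ 2) * (lam : ℝ≥0∞) ^ (2 * r) + (1 + (k : ℝ≥0∞) ^ 2) *
              (∫⁻ x, ENNReal.ofReal (a x ^ r) ∂μ) ^ 2 := by
              refine add_le_add ?_ (mul_le_mul_left le_add_self _)
              exact le_mul_of_one_le_left zero_le le_self_add
          _ = _ := by ring

/-- the two negative moments -/
lemma negmom {C0 : ℝ} (hC0 : 0 < C0) {P : ℕ} (hP : 1 ≤ P)
    (hmk : ∀ k : ℕ, mk μ w γ P k ≤ ENNReal.ofReal (C0 / ((k : ℝ) + 1) ^ P)) (k : ℕ) :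
    ENNReal.ofReal (((k : ℝ) + 1) ^ (P - 1)) * mk μ w γ P k ≤
        ((2 ^ (P - 1) * C0).toNNReal : ℝ≥0∞) ∧
    ENNReal.ofReal (((k : ℝ) + 1) ^ (P - 1)) * ((k : ℝ≥0∞) * mk μ w γ P (k - 1)) ≤
        ((2 ^ (P - 1) * C0).toNNReal : ℝ≥0∞) := by
  obtain ⟨Q, rfl⟩ : ∃ Q, P = Q + 1 := ⟨P - 1, by omega⟩
  rw [Nat.add_sub_cancel]
  have h2 : (1 : ℝ) ≤ 2 ^ Q := one_le_pow₀ one_le_two
  constructor
  · refine (mul_le_mul_right (hmk k) _).trans ?_
    rw [← ENNReal.ofReal_mul (by positivity)]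
    refine ENNReal.ofReal_le_ofReal ?_
    have e : ((k : ℝ) + 1) ^ Q * (C0 / ((k : ℝ) + 1) ^ (Q + 1)) = C0 / ((k : ℝ) + 1) := by
      field_simp
      ring
    rw [e, div_le_iff₀ (by positivity)]
    have : (1 : ℝ) ≤ 2 ^ Q * ((k : ℝ) + 1) := by
      have : (0 : ℝ) ≤ k := by positivity
      nlinarith
    nlinarith
  · rcases k with _ | m
    · simp
    · refine (mul_le_mul_right (mul_le_mul_right (hmk _) _) _).trans ?_
      rw [Nat.add_sub_cancel, ← ENNReal.ofReal_natCast, ← ENNReal.ofReal_mul (by positivity),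
        ← ENNReal.ofReal_mul (by positivity)]
      refine ENNReal.ofReal_le_ofReal ?_
      push_cast
      have hm : (0 : ℝ) ≤ m := by positivity
      have e : ((m : ℝ) + 1 + 1) ^ Q * (((m : ℝ) + 1) * (C0 / ((m : ℝ) + 1) ^ (Q + 1))) =
          (((m : ℝ) + 1 + 1) / ((m : ℝ) + 1)) ^ Q * C0 := by
        rw [div_pow]
        field_simp
        ring
      rw [e]
      refine mul_le_mul_of_nonneg_right (pow_le_pow_left₀ (by positivity) ?_ _) hC0.le
      rw [div_le_iff₀ (by positivity)]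
      linarith

theorem momP (hMk : TaskMk) (hA : TaskPtA) (hB : TaskPtB) (hI : TaskInd) : TaskMomP := by
  intro X _ μ _ w γ hw hw1 hγ hpos p _ r hr
  obtain ⟨C0, hC0, hmk⟩ := hMk X μ w γ hw hw1 hγ hpos (2 * r)
  have hP : 1 ≤ 2 * r := by omega
  obtain ⟨C', hC'⟩ : ∃ C' : ℝ≥0, C' = (2 ^ (2 * r - 1) * C0).toNNReal := ⟨_, rfl⟩
  refine ⟨C', ?_⟩
  intro δ n0 hδ
  choose Cf hCf0 hCf using fun k => hA r k hr δ (by exact_mod_cast hδ)
  obtain ⟨C, hCdef⟩ : ∃ C : ℝ≥0, C = C' + ∑ j ∈ Finset.range n0, (Cf j).toNNReal *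
    (1 + (j : ℝ≥0) ^ 2) := ⟨_, rfl⟩
  refine ⟨C, ?_⟩
  intro a lam ha ha0
  have hk : ∀ k : ℕ, ∫⁻ Y, ENNReal.ofReal (Wf lam γ a w k Y ^ (2 * r))
      ∂(Measure.infinitePi fun _ : ℕ => μ) ≤
      (1 + (δ : ℝ≥0∞)) * ((k : ℝ≥0∞) * mk μ w γ (2 * r) (k - 1)) *
        (∫⁻ x, ENNReal.ofReal (a x ^ (2 * r)) ∂μ) +
      (Set.indicator {k : ℕ | n0 ≤ k} (fun _ => (C' : ℝ≥0∞)) k) *
        (∫⁻ x, ENNReal.ofReal (a x ^ (2 * r)) ∂μ) +
      C * ((lam : ℝ≥0∞) ^ (2 * r) + (∫⁻ x, ENNReal.ofReal (a x ^ r) ∂μ) ^ 2) := by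
    intro k
    by_cases hkn : n0 ≤ k
    · rw [Set.indicator_of_mem (show k ∈ {k : ℕ | n0 ≤ k} from hkn)]
      obtain ⟨g1, g2⟩ := negmom (μ := μ) (w := w) (γ := γ) hC0 hP hmk k
      rw [← hC'] at g1 g2
      have hCC : (C' : ℝ≥0∞) ≤ C := by
        rw [hCdef]
        exact_mod_cast le_self_add
      calc _ ≤ _ := bound1 hB hI hw ha hw1 ha0 hγ lam (2 * r) hP k
        _ = (lam : ℝ≥0∞) ^ (2 * r) * (ENNReal.ofReal (((k : ℝ) + 1) ^ (2 * r - 1)) *
              mk μ w γ (2 * r) k) + (ENNReal.ofReal (((k : ℝ) + 1) ^ (2 * r - 1)) *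
              ((k : ℝ≥0∞) * mk μ w γ (2 * r) (k - 1))) *
              (∫⁻ x, ENNReal.ofReal (a x ^ (2 * r)) ∂μ) := by ring
        _ ≤ (lam : ℝ≥0∞) ^ (2 * r) * C' + C' * (∫⁻ x, ENNReal.ofReal (a x ^ (2 * r)) ∂μ) := by
            gcongr
        _ ≤ (lam : ℝ≥0∞) ^ (2 * r) * C + C' * (∫⁻ x, ENNReal.ofReal (a x ^ (2 * r)) ∂μ) := by
            gcongr
        _ ≤ C' * (∫⁻ x, ENNReal.ofReal (a x ^ (2 * r)) ∂μ) + C * ((lam : ℝ≥0∞) ^ (2 * r) +
              (∫⁻ x, ENNReal.ofReal (a x ^ r) ∂μ) ^ 2) := by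
            rw [add_comm, mul_add, mul_comm ((lam : ℝ≥0∞) ^ (2 * r))]
            exact add_le_add le_rfl le_self_add
        _ ≤ _ := by
            rw [add_assoc]
            exact le_add_self
    · rw [Set.indicator_of_notMem (show k ∉ {k : ℕ | n0 ≤ k} from hkn), zero_mul, add_zero]
      have hc : ((Cf k).toNNReal : ℝ) = Cf k := Real.coe_toNNReal _ (hCf0 k).le
      refine (bound2 hI hw ha hw1 ha0 hγ lam r k δ (Cf k).toNNReal ?_).trans ?_
      · rw [hc]
        exact hCf k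
      · refine add_le_add le_rfl (mul_le_mul_left ?_ _)
        have h1 : (Cf k).toNNReal * (1 + (k : ℝ≥0) ^ 2) ≤ C := by
          rw [hCdef]
          refine le_trans ?_ le_add_self
          exact Finset.single_le_sum (f := fun j : ℕ => (Cf j).toNNReal * (1 + (j : ℝ≥0) ^ 2))
            (fun _ _ => zero_le) (Finset.mem_range.2 (not_le.1 hkn))
        exact_mod_cast h1
  refine (lintegral_mono hk).trans (le_of_eq ?_)
  have hmeas : ∀ f : ℕ → ℝ≥0∞, Measurable f := fun f => Measurable.of_discrete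
  rw [lintegral_add_left (hmeas _), lintegral_add_left (hmeas _), lintegral_mul_const _ (hmeas _),
    lintegral_mul_const _ (hmeas _), lintegral_const_mul _ (hmeas _), lintegral_const,
    measure_univ, mul_one, lintegral_indicator_const (MeasurableSet.of_discrete),
    lintegral_countable']
  have e : ∑' k : ℕ, (k : ℝ≥0∞) * mk μ w γ (2 * r) (k - 1) * p {k} =
      ∑' k : ℕ, p {k} * ((k : ℝ≥0∞) * mk μ w γ (2 * r) (k - 1)) :=
    tsum_congr fun k => mul_comm _ _
  rw [e]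
  ring

end Pool.Agent.W636.FG
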